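import Mathlib

set_option autoImplicit false

namespace Pool.Agent.H.MP_9fb148_an

open Equiv Finset

section alg
variable {R : Type*} [Ring R] [Algebra ℝ R]

/-- ordered product -/
def pr {n : ℕ} (f : Fin n → R) : R := (List.ofFn f).prod

omit [Algebra ℝ R] in
lemma pr_zero (f : Fin 0 → R) : pr f = 1 := by simp [pr]

omit [Algebra ℝ R] in
lemma pr_succ {n : ℕ} (f : Fin (n + 1) → R) : pr f = f 0 * pr (fun i => f i.succ) := by
  simp [pr, List.ofFn_succ]

omit [Algebra ℝ R] in
lemma pr_cons {n : ℕ} (a : R) (f : Fin n → R) : pr (Fin.cons a f : Fin (n + 1) → R) = a * pr f := by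
  rw [pr_succ]; simp

omit [Algebra ℝ R] in
lemma pr_succ' {n : ℕ} (f : Fin (n + 1) → R) :
    pr f = pr (fun i => f i.castSucc) * f (Fin.last n) := by
  unfold pr
  rw [List.ofFn_succ']; simp

lemma anti_pr {n : ℕ} (a : R) (f : Fin n → R) (h : ∀ i, a * f i = -(f i * a)) :
    a * pr f = ((-1 : ℝ) ^ n) • (pr f * a) := by
  induction n with
  | zero => simp [pr_zero]
  | succ n ih =>
    rw [pr_succ, ← mul_assoc, h 0, neg_mul, mul_assoc, ih _ (fun i => h i.succ)]
    rw [pow_succ, mul_smul_comm, mul_assoc]; simp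

omit [Algebra ℝ R] in
lemma comm_pr {n : ℕ} (a : R) (f : Fin n → R) (h : ∀ i, a * f i = f i * a) :
    a * pr f = pr f * a := by
  induction n with
  | zero => simp [pr_zero]
  | succ n ih =>
    rw [pr_succ, ← mul_assoc, h 0, mul_assoc, ih _ (fun i => h i.succ), mul_assoc]

lemma pr_insert {n : ℕ} (p : Fin (n + 1)) (a : R) (f : Fin n → R)
    (h : ∀ i, a * f i = -(f i * a)) :
    pr (p.insertNth a f : Fin (n + 1) → R) = ((-1 : ℝ) ^ (p : ℕ)) • (a * pr f) := by
  induction n with
  | zero =>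
    have : p = 0 := Fin.ext (by omega)
    subst this
    rw [Fin.insertNth_zero', pr_cons]; simp
  | succ n ih =>
    cases p using Fin.cases with
    | zero => rw [Fin.insertNth_zero', pr_cons]; simp
    | succ p =>
      have hf : f = Fin.cons (f 0) (fun i => f i.succ) := (Fin.cons_self_tail f).symm
      rw [hf, Fin.insertNth_succ_cons, pr_cons, ih p _ (fun i => h i.succ), pr_cons]
      have : f 0 * a = -(a * f 0) := by rw [h 0]; simp
      rw [mul_smul_comm, ← mul_assoc, this, Fin.val_succ, pow_succ, ← mul_assoc]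
      simp

/-- real sign -/
def sg {n : ℕ} (σ : Perm (Fin n)) : ℝ := ((Perm.sign σ : ℤ) : ℝ)

lemma sg_mul {n : ℕ} (σ τ : Perm (Fin n)) : sg (σ * τ) = sg σ * sg τ := by simp [sg]

lemma sg_sq {n : ℕ} (σ : Perm (Fin n)) : sg σ * sg σ = 1 := by
  unfold sg
  rcases Int.units_eq_one_or (Perm.sign σ) with h | h <;> simp [h]

lemma sg_cycleRange {n : ℕ} (p : Fin (n + 1)) : sg p.cycleRange = (-1 : ℝ) ^ (p : ℕ) := by
  simp [sg, Fin.sign_cycleRange]

lemma pr_perm {n : ℕ} (h : Fin n → R) (hh : ∀ i j, i ≠ j → h i * h j = -(h j * h i))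
    (σ : Perm (Fin n)) : pr (fun i => h (σ i)) = sg σ • pr h := by
  induction n with
  | zero => simp [pr_zero, sg, Subsingleton.elim σ 1]
  | succ n ih =>
    set p := σ⁻¹ 0 with hp
    obtain ⟨⟨q, e⟩, hqe⟩ := Perm.decomposeFin.symm.surjective (σ * (p.cycleRange)⁻¹)
    have hq : q = 0 := by
      have h1 := congrArg (fun s : Perm (Fin (n + 1)) => s 0) hqe
      simp only [Perm.decomposeFin_symm_apply_zero, Perm.mul_apply] at h1
      have h2 : (p.cycleRange)⁻¹ 0 = p := by
        rw [Perm.inv_eq_iff_eq]; simp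
      rw [h1, h2, hp]; simp
    subst hq
    have hσ : σ = Perm.decomposeFin.symm (0, e) * p.cycleRange := by rw [hqe]; simp
    have hfun : (fun i => h (σ i)) = p.insertNth (h 0) (fun i => h (e i).succ) := by
      rw [← Fin.cons_comp_cycleRange]
      funext i
      conv_lhs => rw [hσ]
      simp only [Perm.mul_apply, Function.comp]
      generalize p.cycleRange i = j
      cases j using Fin.cases <;> simp
    rw [hfun, pr_insert _ _ _ (fun i => hh _ _ (Fin.succ_ne_zero _).symm),
      ih (fun i => h i.succ) (fun i j hij => hh _ _ (fun h' => hij (Fin.succ_injective _ h')))]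
    conv_rhs => rw [hσ, sg_mul, sg_cycleRange, pr_succ]
    have : sg (Perm.decomposeFin.symm (0, e)) = sg e := by simp [sg]
    rw [this, mul_smul_comm, smul_smul, mul_comm]

/-- sign in the product of pairs -/
def eps : ℕ → ℝ
  | 0 => 1
  | n + 1 => (-1) ^ n * eps n

lemma eps_sq (n : ℕ) : eps n * eps n = 1 := by
  induction n with
  | zero => simp [eps]
  | succ n ih =>
    simp only [eps]
    have : ((-1 : ℝ) ^ n) * (-1) ^ n = 1 := by rw [← mul_pow]; simp
    linear_combination (eps n * eps n) * this + ih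

lemma pr_pairs {n : ℕ} (c : ℝ) (a : R) (f : Fin n → R) (h : ∀ i, a * f i = -(f i * a)) :
    pr (fun i => (c • a) * f i) = (c ^ n * eps n) • (a ^ n * pr f) := by
  induction n with
  | zero => simp [pr_zero, eps]
  | succ n ih =>
    rw [pr_succ, ih (fun i => f i.succ) (fun i => h i.succ), pr_succ f]
    have h1 : f 0 * a ^ n = ((-1 : ℝ) ^ n) • (a ^ n * f 0) := by
      have := anti_pr (f 0) (fun _ : Fin n => a) (fun _ => by rw [h 0]; simp)
      simpa [pr] using this
    rw [mul_smul_comm, smul_mul_assoc, smul_mul_assoc, mul_assoc, ← mul_assoc (f 0), h1,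
      smul_mul_assoc, mul_smul_comm, smul_smul, smul_smul, pow_succ' a, eps]
    simp only [mul_assoc]
    congr 1; ring

lemma sum_perm_mul {n : ℕ} (F : (Fin n → Fin n) → ℝ) (c : Perm (Fin n)) :
    ∑ σ : Perm (Fin n), sg σ * F (σ ∘ c) = sg c * ∑ σ : Perm (Fin n), sg σ * F σ := by
  rw [Finset.mul_sum, ← Equiv.sum_comp (Equiv.mulRight c) (fun σ => sg c * (sg σ * F σ))]
  refine Finset.sum_congr rfl fun σ _ => ?_
  simp only [Equiv.coe_mulRight, sg_mul, Perm.coe_mul]
  linear_combination (-(sg σ * F (σ ∘ c))) * sg_sq c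

omit [Algebra ℝ R] in
/-- the top-degree alternating trace vanishes in even degree -/
lemma top_zero {D : ℕ} (hD : Odd D) (t : R → ℝ) (X : Fin (D + 1) → R)
    (ht : ∀ (j : Fin (D + 1)) (a : R), t (X j * a) = t (a * X j)) :
    ∑ σ : Perm (Fin (D + 1)), sg σ * t (pr fun i => X (σ i)) = 0 := by
  have h := sum_perm_mul (fun s => t (pr fun i => X (s i))) (finRotate (D + 1))
  have h1 : sg (finRotate (D + 1)) = -1 := by
    simp [sg, sign_finRotate, hD.neg_one_pow]
  have h2 : ∀ σ : Perm (Fin (D + 1)),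
      t (pr fun i => X ((σ ∘ finRotate (D + 1)) i)) = t (pr fun i => X (σ i)) := by
    intro σ
    rw [pr_succ', pr_succ (fun i => X (σ i)), ht]
    congr 2
    · congr 1; funext i; simp
    · simp
  simp only [h2, h1] at h
  linarith

end alg

section cliff
variable {R : Type*} [Ring R] [Algebra ℝ R] {N : ℕ}

/-- Clifford multiplication -/
noncomputable def G (g : Fin N → R) : EuclideanSpace ℝ (Fin N) →ₗ[ℝ] R where
  toFun x := ∑ j, x j • g j
  map_add' x y := by simp [add_smul, Finset.sum_add_distrib]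
  map_smul' c x := by simp [Finset.smul_sum, smul_smul]

lemma G_apply (g : Fin N → R) (x : EuclideanSpace ℝ (Fin N)) : G g x = ∑ j, x j • g j := rfl

lemma G_single (g : Fin N → R) (k : Fin N) : G g (EuclideanSpace.single k 1) = g k := by
  rw [G_apply, Finset.sum_eq_single k] <;> simp +contextual

lemma G_rel (g : Fin N → R) (h1 : ∀ j, g j * g j = 1)
    (h2 : ∀ j k, j ≠ k → g j * g k = -(g k * g j)) (x y : EuclideanSpace ℝ (Fin N)) :
    G g x * G g y + G g y * G g x = (2 * inner ℝ x y) • (1 : R) := by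
  simp only [G_apply, Finset.sum_mul_sum]
  rw [Finset.sum_comm (f := fun j k => (y j • g j) * (x k • g k)), ← Finset.sum_add_distrib]
  rw [PiLp.inner_apply, Finset.mul_sum, Finset.sum_smul]
  refine Finset.sum_congr rfl fun j _ => ?_
  rw [← Finset.sum_add_distrib, Finset.sum_eq_single j]
  · simp only [smul_mul_smul_comm, h1]
    rw [← add_smul]; congr 1; simp; ring
  · intro k _ hk
    simp only [smul_mul_smul_comm]
    rw [h2 k j hk, mul_comm (y k)]; simp
  · simp

lemma G_sq (g : Fin N → R) (h1 : ∀ j, g j * g j = 1)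
    (h2 : ∀ j k, j ≠ k → g j * g k = -(g k * g j)) (x : EuclideanSpace ℝ (Fin N)) :
    G g x * G g x = (‖x‖ ^ 2) • (1 : R) := by
  have := G_rel g h1 h2 x x
  rw [real_inner_self_eq_norm_sq, ← two_smul ℝ, mul_smul] at this
  exact smul_right_injective R (two_ne_zero) this

/-- multilinear product form -/
noncomputable def form {n : ℕ} {E : Type*} [AddCommGroup E] [Module ℝ E] (t : R →ₗ[ℝ] ℝ)
    (L : Fin n → E →ₗ[ℝ] R) : E [⋀^Fin n]→ₗ[ℝ] ℝ :=
  MultilinearMap.alternatization
    (t.compMultilinearMap ((MultilinearMap.mkPiAlgebraFin ℝ n R).compLinearMap L))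

lemma form_apply {n : ℕ} {E : Type*} [AddCommGroup E] [Module ℝ E] (t : R →ₗ[ℝ] ℝ)
    (L : Fin n → E →ₗ[ℝ] R) (v : Fin n → E) :
    form t L v = ∑ σ : Perm (Fin n), sg σ * t (pr fun i => L i (v (σ i))) := by
  unfold form
  rw [MultilinearMap.alternatization_apply]
  refine Finset.sum_congr rfl fun σ _ => ?_
  simp [sg, pr, Units.smul_def]

/-- the flux density of the round localizer has a fixed sign -/
lemma flux {D : ℕ} (hD : Odd D) (g : Fin (D + 1) → R) (h1 : ∀ j, g j * g j = 1)
    (h2 : ∀ j k, j ≠ k → g j * g k = -(g k * g j)) (t : R →ₗ[ℝ] ℝ) (ht : t (pr g) ≠ 0)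
    (y : EuclideanSpace ℝ (Fin (D + 1))) (hy : y ≠ 0) (c : ℝ) (hc : c < 0) :
    0 < (-(eps D) * t (pr g)) *
      ∑ σ : Perm (Fin (D + 1)), sg σ * (y (σ 0) * t (pr fun i : Fin D => (c • G g y) * g (σ i.succ))) := by
  have hn : 0 < ‖y‖ := norm_pos_iff.2 hy
  obtain ⟨b, hb⟩ := Orthonormal.exists_orthonormalBasis_extension_of_card_eq (𝕜 := ℝ)
    (E := EuclideanSpace ℝ (Fin (D + 1))) (ι := Fin (D + 1)) (by simp)
    (v := fun _ => ‖y‖⁻¹ • y) (s := {0}) (by
      rw [orthonormal_iff_ite]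
      intro i j
      have : i = j := Subsingleton.elim _ _
      subst this
      simp [norm_smul, hn.ne'])
  have hb0 : y = ‖y‖ • b 0 := by rw [hb 0 rfl, smul_smul, mul_inv_cancel₀ hn.ne', one_smul]
  set h : Fin (D + 1) → R := fun i => G g (b i) with hh
  have hh2 : ∀ j k, j ≠ k → h j * h k = -(h k * h j) := by
    intro j k hjk
    have := G_rel g h1 h2 (b j) (b k)
    rw [b.orthonormal.2 hjk] at this
    simp only [mul_zero, zero_smul] at this
    exact eq_neg_of_add_eq_zero_left this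
  have hh1 : h 0 * h 0 = 1 := by
    have := G_sq g h1 h2 (b 0)
    simpa [b.orthonormal.1 0] using this
  let L : Fin (D + 1) → EuclideanSpace ℝ (Fin (D + 1)) →ₗ[ℝ] R :=
    Fin.cons ((innerₛₗ ℝ y).smulRight 1) (fun _ => (LinearMap.mulLeft ℝ (c • G g y)).comp (G g))
  have hL : ∀ v : Fin (D + 1) → EuclideanSpace ℝ (Fin (D + 1)),
      t (pr fun i => L i (v i)) =
        inner ℝ y (v 0) * t (pr fun i : Fin D => (c • G g y) * G g (v i.succ)) := by
    intro v
    rw [pr_succ]
    simp [L]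
  let e : Fin (D + 1) → EuclideanSpace ℝ (Fin (D + 1)) := fun k => EuclideanSpace.single k 1
  have hω := congrArg (fun f => f e) (AlternatingMap.eq_smul_basis_det b.toBasis (form t L))
  have hη := congrArg (fun f => f e)
    (AlternatingMap.eq_smul_basis_det b.toBasis (form t (fun _ : Fin (D + 1) => G g)))
  simp only [AlternatingMap.smul_apply, smul_eq_mul] at hω hη
  rw [form_apply, form_apply] at hω hη
  simp only [hL, e, G_single, OrthonormalBasis.coe_toBasis] at hω hη
  have e1 : ∀ σ : Perm (Fin (D + 1)), sg σ * t (pr fun i => g (σ i)) = t (pr g) := by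
    intro σ; rw [pr_perm g h2, map_smul, smul_eq_mul, ← mul_assoc, sg_sq, one_mul]
  have e2 : ∀ σ : Perm (Fin (D + 1)), sg σ * t (pr fun i => G g (b (σ i))) = t (pr h) := by
    intro σ
    have := pr_perm h hh2 σ
    simp only [hh] at this
    rw [this, map_smul, smul_eq_mul, ← mul_assoc, sg_sq, one_mul]
  have e3 : ∀ σ : Perm (Fin (D + 1)),
      sg σ * (inner ℝ y (b (σ 0)) * t (pr fun i : Fin D => (c • G g y) * G g (b (σ i.succ)))) =
        (if σ 0 = 0 then 1 else 0) * (‖y‖ * (c * ‖y‖) ^ D * eps D * t (pr h)) := by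
    intro σ
    split_ifs with h0
    · have hu : c • G g y = (c * ‖y‖) • h 0 := by
        conv_lhs => rw [hb0]
        rw [map_smul, smul_smul]
      have hne : ∀ i : Fin D, (0 : Fin (D + 1)) ≠ σ i.succ := by
        intro i hi
        rw [← h0] at hi
        exact Fin.succ_ne_zero i (σ.injective hi).symm
      have hp := pr_pairs (c * ‖y‖) (h 0) (fun i : Fin D => h (σ i.succ))
        (fun i => hh2 _ _ (hne i))
      have hpow : h 0 ^ D = h 0 := by
        obtain ⟨k, rfl⟩ := hD
        rw [pow_succ, pow_mul, pow_two, hh1]; simp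
      have hq : h 0 * pr (fun i : Fin D => h (σ i.succ)) = sg σ • pr h := by
        rw [← pr_perm h hh2 σ, pr_succ (fun i => h (σ i)), h0]
      have hi : inner ℝ y (b (σ 0)) = ‖y‖ := by
        rw [h0]
        conv_lhs => rw [hb0]
        rw [real_inner_smul_left, real_inner_self_eq_norm_sq, b.orthonormal.1 0]; simp
      rw [hu, hi]
      change sg σ * (‖y‖ * t (pr fun i : Fin D => ((c * ‖y‖) • h 0) * h (σ i.succ))) = _
      rw [hp, hpow, hq, map_smul, map_smul, smul_eq_mul, smul_eq_mul]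
      linear_combination (‖y‖ * (c * ‖y‖) ^ D * eps D * t (pr h)) * sg_sq σ
    · have hi : inner ℝ y (b (σ 0)) = 0 := by
        conv_lhs => rw [hb0]
        rw [real_inner_smul_left, b.orthonormal.2 (Ne.symm h0)]; simp
      simp [hi]
  simp only [e1, e2, e3, Finset.sum_const, nsmul_eq_mul, ← Finset.sum_mul] at hω hη
  have hcard : (0 : ℝ) < (Finset.univ : Finset (Perm (Fin (D + 1)))).card := by
    exact_mod_cast Finset.card_pos.2 ⟨1, Finset.mem_univ _⟩
  have hη' : t (pr g) = t (pr h) * b.toBasis.det e := by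
    apply mul_left_cancel₀ hcard.ne'
    rw [hη]; ring
  have hK : (0 : ℝ) < ∑ σ : Perm (Fin (D + 1)), (if σ 0 = 0 then (1 : ℝ) else 0) := by
    refine Finset.sum_pos' (fun σ _ => by split_ifs <;> norm_num) ⟨1, Finset.mem_univ _, by simp⟩
  have hs : ∀ σ : Perm (Fin (D + 1)), inner ℝ y (EuclideanSpace.single (σ 0) (1 : ℝ)) = y (σ 0) := by
    intro σ; simp [EuclideanSpace.inner_single_right]
  simp only [hs] at hω
  rw [hω]
  set K := ∑ σ : Perm (Fin (D + 1)), (if σ 0 = 0 then (1 : ℝ) else 0)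
  have hneg : (c * ‖y‖) ^ D < 0 := hD.pow_neg (mul_neg_of_neg_of_pos hc hn)
  have key : -eps D * t (pr g) * (K * (‖y‖ * (c * ‖y‖) ^ D * eps D * t (pr h)) * b.toBasis.det e)
      = K * ‖y‖ * (-(c * ‖y‖) ^ D) * (t (pr g)) ^ 2 := by
    rw [hη']
    linear_combination
      (-(K * ‖y‖ * (c * ‖y‖) ^ D * (t (pr h) * b.toBasis.det e) ^ 2)) * eps_sq D
  rw [key]
  have : 0 < -(c * ‖y‖) ^ D := by linarith
  positivity

end cliff

end Pool.Agent.H.MP_9fb148_an
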