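import Pool.Agent.H.MP_9fb148_an.A

set_option autoImplicit false

namespace Pool.Agent.H.MP_9fb148_an

open Equiv Finset MeasureTheory Filter Topology

section ana
variable {R : Type*} [NormedRing R] [NormedAlgebra ℝ R] [CompleteSpace R] {N : ℕ}

omit [CompleteSpace R] in
lemma G_cont (g : Fin N → R) : Continuous (G g) := by
  change Continuous fun x : EuclideanSpace ℝ (Fin N) => ∑ j, x j • g j
  fun_prop

/-- resolvent times generator -/
noncomputable def X (g : Fin N → R) (B : R) (x : EuclideanSpace ℝ (Fin N)) (j : Fin N) : R :=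
  Ring.inverse (B - G g x) * g j

lemma X_deriv (g : Fin N → R) (B : R) (x : EuclideanSpace ℝ (Fin N)) (hx : IsUnit (B - G g x))
    (j k : Fin N) :
    HasDerivAt (fun s : ℝ => X g B (x + s • EuclideanSpace.single k 1) j)
      (X g B x k * X g B x j) 0 := by
  obtain ⟨u, hu⟩ := hx
  have h1 : HasDerivAt (fun s : ℝ => B - G g (x + s • EuclideanSpace.single k 1)) (-(g k)) 0 := by
    simp only [map_add, map_smul, G_single]
    simpa using (((hasDerivAt_id (0 : ℝ)).smul_const (g k)).const_add (G g x)).const_sub B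
  have h2 := hasFDerivAt_ringInverse (𝕜 := ℝ) u
  have h3 := h2.comp_hasDerivAt_of_eq (0 : ℝ) h1 (by simp [hu])
  have h4 := h3.mul_const (g j)
  unfold X
  rw [← hu, Ring.inverse_unit]
  simpa [mul_assoc] using h4

lemma P_deriv (g : Fin N → R) (B : R) (x : EuclideanSpace ℝ (Fin N)) (hx : IsUnit (B - G g x))
    (k : Fin N) {n : ℕ} (f : Fin n → Fin N) :
    HasDerivAt (fun s : ℝ => pr fun i => X g B (x + s • EuclideanSpace.single k 1) (f i))
      (∑ p : Fin n, pr fun i => X g B x ((p.castSucc.insertNth k f : Fin (n + 1) → Fin N) i)) 0 := by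
  induction n with
  | zero => simpa [pr_zero] using hasDerivAt_const (0 : ℝ) (1 : R)
  | succ n ih =>
    simp only [pr_succ (n := n)]
    have := (X_deriv g B x hx (f 0) k).mul (ih (fun i => f i.succ))
    refine this.congr_deriv ?_
    rw [Fin.sum_univ_succ]
    simp only [zero_smul, add_zero]
    congr 1
    · rw [pr_succ, pr_succ]
      simp [Fin.insertNth_zero', mul_assoc]
    · rw [Finset.mul_sum]
      refine Finset.sum_congr rfl fun p _ => ?_
      have hf : f = Fin.cons (f 0) (fun i => f i.succ) := (Fin.cons_self_tail f).symm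
      rw [pr_succ (n := n + 1)]
      have : (p.succ.castSucc.insertNth k f : Fin (n + 2) → Fin N) =
          Fin.cons (f 0) (p.castSucc.insertNth k (fun i => f i.succ)) := by
        rw [← Fin.succ_castSucc]
        conv_lhs => rw [hf]
        rw [Fin.insertNth_succ_cons]
      rw [this]
      simp

omit [CompleteSpace R] [NormedAlgebra ℝ R] in
lemma pr_contAt {Y : Type*} [TopologicalSpace Y] {n : ℕ} (f : Y → Fin n → R) (y : Y)
    (h : ∀ i, ContinuousAt (fun z => f z i) y) : ContinuousAt (fun z => pr (f z)) y := by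
  induction n with
  | zero => simpa [pr_zero] using continuousAt_const
  | succ n ih =>
    simp only [pr_succ (n := n)]
    exact (h 0).mul (ih (fun z i => f z i.succ) (fun i => h i.succ))

lemma X_contAt (g : Fin N → R) (B : R) (p : ℝ × EuclideanSpace ℝ (Fin N))
    (hp : IsUnit (p.1 • B - G g p.2)) (j : Fin N) :
    ContinuousAt (fun q : ℝ × EuclideanSpace ℝ (Fin N) => X g (q.1 • B) q.2 j) p := by
  obtain ⟨u, hu⟩ := hp
  unfold X
  refine ContinuousAt.mul ?_ continuousAt_const
  have h1 : Continuous fun q : ℝ × EuclideanSpace ℝ (Fin N) => q.1 • B - G g q.2 :=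
    (continuous_fst.smul continuous_const).sub ((G_cont g).comp continuous_snd)
  exact ContinuousAt.comp (f := fun q : ℝ × EuclideanSpace ℝ (Fin N) => q.1 • B - G g q.2)
    (by rw [← hu]; exact NormedRing.inverse_continuousAt u) h1.continuousAt

lemma X_cont (g : Fin N → R) (B : R) (h : ∀ x, IsUnit (B - G g x)) (j : Fin N) :
    Continuous fun x => X g B x j := by
  rw [continuous_iff_continuousAt]
  intro x
  have := X_contAt g B (1, x) (by simpa using h x) j
  have h2 := ContinuousAt.comp (f := fun x : EuclideanSpace ℝ (Fin N) => ((1 : ℝ), x))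
    (x := x) this (by fun_prop)
  simpa [Function.comp_def] using h2

lemma P_cont (g : Fin N → R) (B : R) (h : ∀ x, IsUnit (B - G g x)) {n : ℕ} (f : Fin n → Fin N) :
    Continuous fun x => pr fun i => X g B x (f i) := by
  rw [continuous_iff_continuousAt]
  intro x
  exact pr_contAt (fun x i => X g B x (f i)) x (fun i => (X_cont g B h (f i)).continuousAt)

/-- radial weight -/
noncomputable def rho (s : ℝ) : ℝ := max 0 ((s - 1) * (2 - s))

lemma rho_cont : Continuous rho := by unfold rho; fun_prop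

lemma rho_zero {s : ℝ} (h : s ≤ 1 ∨ 2 ≤ s) : rho s = 0 := by
  unfold rho
  rcases h with h | h
  · exact max_eq_left (by nlinarith)
  · exact max_eq_left (by nlinarith)

/-- its primitive -/
noncomputable def psi (s : ℝ) : ℝ := ∫ r in (2 : ℝ)..s, rho r

lemma psi_deriv (s : ℝ) : HasDerivAt psi (rho s) s :=
  (rho_cont.integral_hasStrictDerivAt 2 s).hasDerivAt

lemma psi_zero {s : ℝ} (h : 2 ≤ s) : psi s = 0 := by
  unfold psi
  rw [intervalIntegral.integral_congr (g := fun _ => (0 : ℝ))]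
  · simp
  · intro r hr
    rw [Set.uIcc_of_le h] at hr
    exact rho_zero (Or.inr hr.1)

lemma supp_of (F : EuclideanSpace ℝ (Fin N) → ℝ) (h : ∀ x, 2 ≤ ‖x‖ ^ 2 → F x = 0) :
    HasCompactSupport F := by
  refine HasCompactSupport.intro (isCompact_closedBall 0 2) fun x hx => h x ?_
  simp only [Metric.mem_closedBall, dist_zero_right, not_le] at hx
  nlinarith

/-- the weighted flux of an everywhere invertible localizer vanishes -/
lemma flux_zero {D : ℕ} (hD : Odd D) (g : Fin (D + 1) → R) (B : R)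
    (h : ∀ x, IsUnit (B - G g x)) (t : R →L[ℝ] ℝ)
    (ht : ∀ x j a, t (X g B x j * a) = t (a * X g B x j)) :
    ∫ x : EuclideanSpace ℝ (Fin (D + 1)), rho (‖x‖ ^ 2) *
      ∑ σ : Perm (Fin (D + 1)), sg σ * (x (σ 0) * t (pr fun i : Fin D => X g B x (σ i.succ))) = 0 := by
  have hpsi : Continuous psi := continuous_iff_continuousAt.2 fun s => (psi_deriv s).continuousAt
  let Q : Perm (Fin (D + 1)) → EuclideanSpace ℝ (Fin (D + 1)) → ℝ :=
    fun σ x => t (pr fun i : Fin D => X g B x (σ i.succ))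
  let Q' : Perm (Fin (D + 1)) → EuclideanSpace ℝ (Fin (D + 1)) → ℝ :=
    fun σ x => ∑ p : Fin D, t (pr fun i => X g B x ((σ ∘ p.castSucc.cycleRange) i))
  have hQc : ∀ σ, Continuous (Q σ) := fun σ => t.continuous.comp (P_cont g B h _)
  have hQ'c : ∀ σ, Continuous (Q' σ) := fun σ =>
    continuous_finsetSum _ fun p _ => t.continuous.comp (P_cont g B h _)
  let φ : EuclideanSpace ℝ (Fin (D + 1)) → ℝ := fun x => psi (‖x‖ ^ 2)
  let φ' : Fin (D + 1) → EuclideanSpace ℝ (Fin (D + 1)) → ℝ :=
    fun k x => rho (‖x‖ ^ 2) * (2 * x k)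
  have hφc : Continuous φ := hpsi.comp (by fun_prop)
  have hφ'c : ∀ k, Continuous (φ' k) := fun k =>
    (rho_cont.comp (by fun_prop)).mul (by fun_prop)
  have hφs : HasCompactSupport φ := supp_of _ fun x hx => psi_zero hx
  have hφ's : ∀ k, HasCompactSupport (φ' k) := fun k =>
    supp_of _ fun x hx => by simp [φ', rho_zero (Or.inr hx)]
  have i1 : ∀ σ, Integrable (fun x => φ' (σ 0) x * Q σ x) := fun σ =>
    ((hφ'c _).mul (hQc σ)).integrable_of_hasCompactSupport (hφ's _).mul_right
  have i2 : ∀ σ, Integrable (fun x => φ x * Q' σ x) := fun σ =>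
    (hφc.mul (hQ'c σ)).integrable_of_hasCompactSupport hφs.mul_right
  have i3 : ∀ σ, Integrable (fun x => φ x * Q σ x) := fun σ =>
    (hφc.mul (hQc σ)).integrable_of_hasCompactSupport hφs.mul_right
  have ibp : ∀ σ : Perm (Fin (D + 1)), ∫ x, φ x * Q' σ x = - ∫ x, φ' (σ 0) x * Q σ x := by
    intro σ
    refine integral_bilinear_hasLineDerivAt_right_eq_neg_left_of_integrable
      (B := ContinuousLinearMap.mul ℝ ℝ) (v := EuclideanSpace.single (σ 0) 1) (μ := volume)
      (i1 σ) (i2 σ) (i3 σ) (fun x _ => ?_) (fun x _ => ?_)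
    · have a1 : HasDerivAt (fun s : ℝ => x + s • EuclideanSpace.single (σ 0) (1 : ℝ))
          (EuclideanSpace.single (σ 0) (1 : ℝ)) 0 := by
        simpa using ((hasDerivAt_id (0 : ℝ)).smul_const
          (EuclideanSpace.single (σ 0) (1 : ℝ))).const_add x
      have a2 := (psi_deriv (‖x‖ ^ 2)).comp_of_eq (0 : ℝ) a1.norm_sq (by simp)
      unfold HasLineDerivAt
      refine a2.congr_deriv ?_
      simp [φ', EuclideanSpace.inner_single_right]
    · have a1 := P_deriv g B x (h x) (σ 0) (fun i : Fin D => σ i.succ)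
      have a2 := t.hasFDerivAt.comp_hasDerivAt (0 : ℝ) a1
      unfold HasLineDerivAt
      refine a2.congr_deriv ?_
      simp only [Q', map_sum]
      refine Finset.sum_congr rfl fun p _ => ?_
      rw [← Fin.cons_comp_cycleRange]
      have : (Fin.cons (σ 0) (fun i : Fin D => σ i.succ) : Fin (D + 1) → Fin (D + 1)) = σ :=
        Fin.cons_self_tail σ
      rw [this]
  have hz : ∀ x, ∑ σ : Perm (Fin (D + 1)), sg σ * Q' σ x = 0 := by
    intro x
    simp only [Q', Finset.mul_sum]
    rw [Finset.sum_comm]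
    refine Finset.sum_eq_zero fun p _ => ?_
    rw [sum_perm_mul (fun s => t (pr fun i => X g B x (s i))), top_zero hD t _ (ht x), mul_zero]
  have s1 : ∑ σ : Perm (Fin (D + 1)), sg σ * ∫ x, φ x * Q' σ x = 0 := by
    simp only [← integral_const_mul]
    rw [← integral_finsetSum _ (fun σ _ => (i2 σ).const_mul _)]
    have : ∀ x, ∑ σ : Perm (Fin (D + 1)), sg σ * (φ x * Q' σ x) = 0 := by
      intro x
      have := congrArg (fun r => φ x * r) (hz x)
      simp only [Finset.mul_sum, mul_zero] at this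
      rw [← this]
      exact Finset.sum_congr rfl fun σ _ => by ring
    simp [this]
  simp only [ibp, mul_neg, Finset.sum_neg_distrib, neg_eq_zero, ← integral_const_mul] at s1
  rw [← integral_finsetSum _ (fun σ _ => (i1 σ).const_mul _)] at s1
  have s2 : ∀ x : EuclideanSpace ℝ (Fin (D + 1)),
      ∑ σ : Perm (Fin (D + 1)), sg σ * (φ' (σ 0) x * Q σ x) = 2 * (rho (‖x‖ ^ 2) *
      ∑ σ : Perm (Fin (D + 1)), sg σ * (x (σ 0) * t (pr fun i : Fin D => X g B x (σ i.succ)))) := by
    intro x
    simp only [Finset.mul_sum, φ', Q]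
    exact Finset.sum_congr rfl fun σ _ => by ring
  simp only [s2, integral_const_mul] at s1
  linarith

theorem core {D : ℕ} (hD : Odd D) (g : Fin (D + 1) → R) (h1 : ∀ j, g j * g j = 1)
    (h2 : ∀ j k, j ≠ k → g j * g k = -(g k * g j)) (B W : R) (hW : ∀ j, W * g j = -(g j * W))
    (hWB : W * B = -(B * W)) (tr : R →L[ℝ] ℝ) (htr : ∀ a b, tr (a * b) = tr (b * a))
    (h0 : tr (W * pr g) ≠ 0) : ∃ x, ¬ IsUnit (B - G g x) := by
  by_contra hcon
  push Not at hcon
  let t : R →L[ℝ] ℝ := tr.comp (ContinuousLinearMap.mul ℝ R W)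
  have tap : ∀ a, t a = tr (W * a) := fun a => rfl
  let s : ℝ := -(eps D) * t (pr g)
  let H : ℝ × EuclideanSpace ℝ (Fin (D + 1)) → ℝ := fun q => s *
    ∑ σ : Perm (Fin (D + 1)), sg σ * (q.2 (σ 0) * t (pr fun i : Fin D => X g (q.1 • B) q.2 (σ i.succ)))
  have hHc : ∀ q : ℝ × EuclideanSpace ℝ (Fin (D + 1)), IsUnit (q.1 • B - G g q.2) →
      ContinuousAt H q := by
    intro q hq
    refine continuousAt_const.mul (tendsto_finsetSum _ fun σ _ => ?_)
    refine ContinuousAt.mul continuousAt_const (ContinuousAt.mul (by fun_prop) ?_)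
    exact t.continuous.continuousAt.comp
      (pr_contAt (fun (q : ℝ × EuclideanSpace ℝ (Fin (D + 1))) (i : Fin D) =>
        X g (q.1 • B) q.2 (σ i.succ)) q (fun i => X_contAt g B q hq _))
  let K : Set (EuclideanSpace ℝ (Fin (D + 1))) := {y | 1 ≤ ‖y‖ ^ 2 ∧ ‖y‖ ^ 2 ≤ 2}
  have hK : IsCompact K := by
    refine (isCompact_closedBall (0 : EuclideanSpace ℝ (Fin (D + 1))) 2).of_isClosed_subset ?_ ?_
    · have hc : Continuous fun y : EuclideanSpace ℝ (Fin (D + 1)) => ‖y‖ ^ 2 := by fun_prop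
      exact (isClosed_le continuous_const hc).inter (isClosed_le hc continuous_const)
    · intro y hy
      simp only [Metric.mem_closedBall, dist_zero_right]
      have := hy.2
      nlinarith [norm_nonneg y]
  have hev : ∀ᶠ e in 𝓝 (0 : ℝ), ∀ y ∈ K, 0 < H (e, y) := by
    refine hK.eventually_forall_of_forall_eventually (P := fun e y => 0 < H (e, y)) fun y hy => ?_
    have hr : 0 < ‖y‖ ^ 2 := lt_of_lt_of_le one_pos hy.1
    have hy0 : y ≠ 0 := by rintro rfl; simp at hr
    have hsq := G_sq g h1 h2 y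
    let u : Rˣ := ⟨-G g y, (-(‖y‖ ^ 2)⁻¹) • G g y, by
      rw [mul_smul_comm, neg_mul, hsq, smul_neg, smul_smul]; simp [hr.ne'], by
      rw [smul_mul_assoc, mul_neg, hsq, smul_neg, smul_smul]; simp [hr.ne']⟩
    have hu : (0 : ℝ) • B - G g y = u := by simp [u]
    have hpos : 0 < H (0, y) := by
      have := flux hD g h1 h2 (t : R →ₗ[ℝ] ℝ) h0 y hy0 (-(‖y‖ ^ 2)⁻¹) (by simp [hr])
      simp only [H, X, hu, Ring.inverse_unit]
      exact this
    exact (hHc (0, y) ⟨u, hu.symm⟩).eventually (lt_mem_nhds hpos)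
  obtain ⟨e, he, he0⟩ := ((hev.filter_mono (nhdsWithin_le_nhds (s := {0}ᶜ))).and
    self_mem_nhdsWithin).exists
  have he0' : e ≠ 0 := he0
  have hun : ∀ x, IsUnit (e • B - G g x) := by
    intro x
    have : e • B - G g x = (algebraMap ℝ R e) * (B - G g (e⁻¹ • x)) := by
      rw [← Algebra.smul_def, map_smul, smul_sub, smul_smul, mul_inv_cancel₀ he0', one_smul]
    rw [this]
    exact ((IsUnit.mk0 e he0').map (algebraMap ℝ R)).mul (hcon _)
  have hcomm : ∀ x j, W * X g (e • B) x j = X g (e • B) x j * W := by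
    intro x j
    obtain ⟨u, hu⟩ := hun x
    have a1 : W * (u : R) = -(u * W) := by
      rw [hu, mul_sub, sub_mul, mul_smul_comm, smul_mul_assoc, hWB, G_apply, Finset.mul_sum,
        Finset.sum_mul]
      simp only [mul_smul_comm, smul_mul_assoc, hW, smul_neg, Finset.sum_neg_distrib]
      abel
    have a2 : W * (↑u⁻¹ : R) = -(↑u⁻¹ * W) := by
      have : (↑u⁻¹ : R) * (W * u) * ↑u⁻¹ = ↑u⁻¹ * (-(u * W)) * ↑u⁻¹ := by rw [a1]
      simp only [mul_assoc, Units.mul_inv, mul_one, mul_neg, neg_mul, Units.inv_mul_cancel_left]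
        at this
      rw [this, neg_neg]
    unfold X
    rw [← hu, Ring.inverse_unit, ← mul_assoc, a2, neg_mul, mul_assoc, hW, mul_assoc]
    simp
  have hz := flux_zero hD g (e • B) hun t (by
    intro x j a
    rw [tap, tap, ← mul_assoc, hcomm, mul_assoc, htr, mul_assoc])
  have hz' : ∫ x : EuclideanSpace ℝ (Fin (D + 1)), rho (‖x‖ ^ 2) * H (e, x) = 0 := by
    have := congrArg (fun r => s * r) hz
    simp only [mul_zero, ← integral_const_mul] at this
    rw [← this]
    congr 1; funext x; simp only [H]; ring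
  have hc : Continuous fun x : EuclideanSpace ℝ (Fin (D + 1)) => rho (‖x‖ ^ 2) * H (e, x) := by
    refine (rho_cont.comp (by fun_prop)).mul (continuous_iff_continuousAt.2 fun x => ?_)
    exact ContinuousAt.comp (f := fun x : EuclideanSpace ℝ (Fin (D + 1)) => (e, x))
      (hHc (e, x) (hun x)) (by fun_prop)
  let y0 : EuclideanSpace ℝ (Fin (D + 1)) := EuclideanSpace.single 0 (5 / 4)
  have hy0 : ‖y0‖ ^ 2 = 25 / 16 := by simp [y0]; norm_num
  have hpos := hc.integral_pos_of_hasCompactSupport_nonneg_nonzero (μ := volume) (x := y0)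
    (supp_of _ fun x hx => by simp [rho_zero (Or.inr hx)]) (fun x => by
      by_cases hx : x ∈ K
      · exact mul_nonneg (le_max_left _ _) (he x hx).le
      · have : ‖x‖ ^ 2 ≤ 1 ∨ 2 ≤ ‖x‖ ^ 2 := by
          by_contra hh
          push Not at hh
          exact hx ⟨hh.1.le, hh.2.le⟩
        simp [rho_zero this]) (by
      refine mul_ne_zero ?_ (he y0 ⟨by rw [hy0]; norm_num, by rw [hy0]; norm_num⟩).ne'
      rw [hy0]; unfold rho; norm_num)
  exact hpos.ne' hz'

end ana

section vol
variable {R : Type*} [Ring R] [Algebra ℝ R]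

lemma vol_anti {D : ℕ} (hD : Odd D) (g : Fin (D + 1) → R)
    (h2 : ∀ j k, j ≠ k → g j * g k = -(g k * g j)) (p : Fin (D + 1)) :
    pr g * g p = -(g p * pr g) := by
  have hg : g = p.insertNth (g p) (fun i => g (p.succAbove i)) := (Fin.insertNth_self_removeNth p g).symm
  have ha : ∀ i, g p * g (p.succAbove i) = -(g (p.succAbove i) * g p) :=
    fun i => h2 _ _ (Fin.succAbove_ne p i).symm
  have e1 := pr_insert p (g p) (fun i => g (p.succAbove i)) ha
  rw [← hg] at e1
  have e2 := anti_pr (g p) (fun i => g (p.succAbove i)) ha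
  rw [hD.neg_one_pow, neg_smul, one_smul] at e2
  rw [e1, smul_mul_assoc, mul_smul_comm, mul_assoc]
  conv_rhs => rw [e2]
  simp

lemma vol_sq {n : ℕ} (g : Fin n → R) (h1 : ∀ j, g j * g j = 1)
    (h2 : ∀ j k, j ≠ k → g j * g k = -(g k * g j)) :
    ∃ e : ℝ, e ≠ 0 ∧ pr g * pr g = e • (1 : R) := by
  induction n with
  | zero => exact ⟨1, one_ne_zero, by simp [pr_zero]⟩
  | succ n ih =>
    obtain ⟨e, he, h⟩ := ih (fun i => g i.succ) (fun i => h1 _)
      (fun i j hij => h2 _ _ (fun h' => hij (Fin.succ_injective _ h')))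
    have e2 := anti_pr (g 0) (fun i => g i.succ) (fun i => h2 _ _ (Fin.succ_ne_zero i).symm)
    refine ⟨(-1) ^ n * e, mul_ne_zero (pow_ne_zero _ (by norm_num)) he, ?_⟩
    rw [pr_succ]
    conv_lhs => rw [e2]
    rw [smul_mul_assoc, ← e2, mul_assoc, ← mul_assoc (g 0), h1, one_mul, h, smul_smul]

end vol

open scoped Matrix.Norms.Operator in
theorem mat {ι : Type} [Fintype ι] [DecidableEq ι] [Nonempty ι] {D : ℕ} (hD : Odd D)
    (g a : Fin (D + 1) → Matrix ι ι ℂ) (h1 : ∀ j, g j * g j = 1)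
    (h2 : ∀ j k, j ≠ k → g j * g k = -(g k * g j)) (ha : ∀ j k, a j * g k = g k * a j) :
    ∃ x : Fin (D + 1) → ℝ, ¬ IsUnit (∑ j, a j * g j - ∑ j, x j • g j) := by
  haveI : CompleteSpace (Matrix ι ι ℂ) := FiniteDimensional.complete ℝ _
  let tr0 : Matrix ι ι ℂ →ₗ[ℝ] ℝ := Complex.reLm.comp (Matrix.traceLinearMap ι ℝ ℂ)
  have tap : ∀ M, tr0 M = (Matrix.trace M).re := fun M => rfl
  obtain ⟨e, he, hsq⟩ := vol_sq g h1 h2
  obtain ⟨x, hx⟩ := core hD g h1 h2 (∑ j, a j * g j) (pr g) (vol_anti hD g h2) (by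
      rw [Finset.mul_sum, Finset.sum_mul, ← Finset.sum_neg_distrib]
      refine Finset.sum_congr rfl fun j _ => ?_
      rw [← mul_assoc, ← comm_pr (a j) g (ha j), mul_assoc, vol_anti hD g h2, mul_assoc]; simp)
    (LinearMap.toContinuousLinearMap tr0) (by
      intro A B
      simp only [LinearMap.coe_toContinuousLinearMap', tap]
      rw [Matrix.trace_mul_comm]) (by
      simp only [LinearMap.coe_toContinuousLinearMap', tap, hsq]
      simp [he])
  exact ⟨fun j => x j, hx⟩

open Matrix in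
open scoped ComplexOrder in
theorem herm {ι : Type} [Fintype ι] [DecidableEq ι] [Nonempty ι] {d : ℕ}
    (g a : Fin d → Matrix ι ι ℂ) (h1 : ∀ j, g j * g j = 1)
    (h2 : ∀ j k, j ≠ k → g j * g k = -(g k * g j)) (ha : ∀ j k, a j * g k = g k * a j)
    (hh : ∀ x : Fin d → ℝ, (∑ j, a j * g j - ∑ j, x j • g j).IsHermitian) :
    ∃ x : Fin d → ℝ, ¬ IsUnit (∑ j, a j * g j - ∑ j, x j • g j) := by
  rcases Nat.even_or_odd d with hd | hd
  · cases d with
    | zero => exact ⟨fun _ => 0, by simp⟩
    | succ D =>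
      rw [Nat.even_add_one] at hd
      exact mat (Nat.not_even_iff_odd.1 hd) g a h1 h2 ha
  · let g' : Fin (d + 1) → Matrix (ι ⊕ ι) (ι ⊕ ι) ℂ :=
      Fin.cons (fromBlocks 1 0 0 (-1)) (fun j => fromBlocks 0 (g j) (g j) 0)
    let a' : Fin (d + 1) → Matrix (ι ⊕ ι) (ι ⊕ ι) ℂ :=
      Fin.cons 0 (fun j => fromBlocks (a j) 0 0 (a j))
    obtain ⟨x, hx⟩ := mat hd g' a' (by
        intro j
        cases j using Fin.cases <;> simp [g', fromBlocks_multiply, h1]) (by
        intro j k hjk
        cases j using Fin.cases <;> cases k using Fin.cases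
        · exact absurd rfl hjk
        · simp [g', fromBlocks_multiply, fromBlocks_neg]
        · simp [g', fromBlocks_multiply, fromBlocks_neg]
        · rename_i j k
          have : j ≠ k := fun h => hjk (by rw [h])
          simp [g', fromBlocks_multiply, fromBlocks_neg, h2 j k this]) (by
        intro j k
        cases j using Fin.cases <;> cases k using Fin.cases <;>
          simp [g', a', fromBlocks_multiply, ha])
    refine ⟨fun j => x j.succ, fun hu => hx ?_⟩
    set L := ∑ j, a j * g j - ∑ j, x j.succ • g j with hL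
    have hM : ∑ j, a' j * g' j - ∑ j, x j • g' j =
        fromBlocks (-(x 0 • 1)) L L (x 0 • 1) := by
      rw [Fin.sum_univ_succ, Fin.sum_univ_succ, hL]
      ext i j
      rcases i with i | i <;> rcases j with j | j <;>
        simp [g', a', fromBlocks_multiply, Matrix.sum_apply]
    rw [hM]
    have hP : (L * L + (x 0 * x 0) • (1 : Matrix ι ι ℂ)).PosDef := by
      refine PosDef.add_posSemidef ?_ (PosSemidef.one.smul (mul_self_nonneg _))
      have := PosDef.conjTranspose_mul_self L (mulVec_injective_iff_isUnit.2 hu)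
      rwa [(hh fun j => x j.succ).eq] at this
    have hsq : fromBlocks (-(x 0 • 1)) L L (x 0 • 1) * fromBlocks (-(x 0 • 1)) L L (x 0 • (1 : Matrix ι ι ℂ)) =
        fromBlocks (L * L + (x 0 * x 0) • 1) 0 0 (L * L + (x 0 * x 0) • 1) := by
      rw [fromBlocks_multiply]
      congr 1 <;> simp [smul_smul, add_comm]
    have : IsUnit (fromBlocks (L * L + (x 0 * x 0) • (1 : Matrix ι ι ℂ)) 0 0
        (L * L + (x 0 * x 0) • (1 : Matrix ι ι ℂ))) := by
      rw [isUnit_fromBlocks_zero₂₁]
      exact ⟨hP.isUnit, hP.isUnit⟩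
    rw [← hsq, Matrix.isUnit_iff_isUnit_det, det_mul] at this
    rw [Matrix.isUnit_iff_isUnit_det]
    exact isUnit_of_mul_isUnit_left this

end Pool.Agent.H.MP_9fb148_an
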